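import Mathlib

/-!
Combinatorial construction for the solution of MP_5d027a_an:
a syndetic subset of a syndetic set which avoids (up to translation, with bounded gaps)
every member of a countable family of finite sets having uniformly long gaps.
-/

namespace Pool.Agent.W5d027a

open Set

/-- `GapProp Rem L r`: every integer interval of length `r` contains an interval of length `L`
disjoint from `Rem`. -/
def GapProp (Rem : Set ℤ) (L r : ℕ) : Prop :=
  ∀ a : ℤ, ∃ b : ℤ, a ≤ b ∧ b + L ≤ a + r ∧ ∀ n : ℤ, b ≤ n → n < b + L → n ∉ Rem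

/-- One step of the construction. -/
lemma step (E : Set ℤ) (F : Finset ℤ) (Rr : ℕ → ℕ) (hRr : ∀ L, L ≤ Rr L) (d d' : ℕ) (hd : 1 ≤ d)
    (hFd : ∀ f ∈ F, -(d : ℤ) < f ∧ f < d)
    (hd' : Rr (4 * d) ≤ d') (hdd : d ≤ d')
    (hF : ∀ m : ℤ, ∀ L : ℕ, GapProp {n | n - m ∈ F ∧ n ∈ E} L (Rr L))
    (Rem' : Set ℤ) (h' : ∀ L, Rr L ≤ d' → GapProp Rem' L (Rr L)) :
    ∃ Rem : Set ℤ, Rem' ⊆ Rem ∧ (∀ L, Rr L ≤ d → GapProp Rem L (Rr L)) ∧
      ∀ a : ℤ, ∃ m : ℤ, a ≤ m ∧ m < a + 2 * Rr (4 * d) ∧ ∀ f ∈ F, m + f ∈ E → m + f ∈ Rem := by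
  set H : ℕ := Rr (4 * d) with hH
  have hHpos : 4 * d ≤ H := hRr _
  have hH1 : 1 ≤ H := by omega
  have key : ∀ t : ℤ, ∃ b : ℤ, H * t ≤ b ∧ b + (4 * d : ℕ) ≤ H * t + H ∧
      ∀ n : ℤ, b ≤ n → n < b + (4 * d : ℕ) → n ∉ Rem' := fun t => h' (4 * d) hd' (H * t)
  choose b hb1 hb2 hb3 using key
  -- level interval around m t = b t + 2 d
  refine ⟨Rem' ∪ {n | ∃ t, n - (b t + 2 * d) ∈ F ∧ n ∈ E}, subset_union_left, ?_, ?_⟩
  · intro L hL a
    by_cases hcase : ∃ t : ℤ, ∃ n : ℤ, a ≤ n ∧ n < a + Rr L ∧ b t + 2 * d - d < n ∧ n < b t + 2 * d + d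
    · obtain ⟨t, n0, h1, h2, h3, h4⟩ := hcase
      obtain ⟨c, hc1, hc2, hc3⟩ := hF (b t + 2 * d) L a
      refine ⟨c, hc1, hc2, ?_⟩
      intro n hn1 hn2 hn
      have hLR := hRr L
      have hin1 : b t ≤ n := by omega
      have hin2 : n < b t + (4 * d : ℕ) := by push_cast; omega
      rcases hn with hn | ⟨t', ht', hE⟩
      · exact hb3 t n hin1 hin2 hn
      · have htt : t' = t := by
          have hf := hFd _ ht'
          have e1 := hb1 t
          have e2 := hb2 t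
          have e3 := hb1 t'
          have e4 := hb2 t'
          push_cast at e2 e4 hin2
          -- H * t ≤ n < H * t + H and H * t' ≤ n < H * t' + H
          have g1 : (H : ℤ) * t ≤ n := by omega
          have g2 : n < H * t + H := by omega
          have g3 : (H : ℤ) * t' ≤ n := by omega
          have g4 : n < H * t' + H := by omega
          have hHZ : (0 : ℤ) < H := by exact_mod_cast hH1
          have l1 : (H : ℤ) * t < H * (t' + 1) := by nlinarith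
          have l2 : (H : ℤ) * t' < H * (t + 1) := by nlinarith
          have l3 := lt_of_mul_lt_mul_left l1 hHZ.le
          have l4 := lt_of_mul_lt_mul_left l2 hHZ.le
          omega
        subst htt
        exact hc3 n hn1 hn2 ⟨ht', hE⟩
    · push Not at hcase
      obtain ⟨c, hc1, hc2, hc3⟩ := h' L (hL.trans hdd) a
      refine ⟨c, hc1, hc2, ?_⟩
      intro n hn1 hn2 hn
      rcases hn with hn | ⟨t', ht', hE⟩
      · exact hc3 n hn1 hn2 hn
      · have hf := hFd _ ht'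
        have := hcase t' n (by omega) (by omega) (by omega)
        omega
  · intro a
    -- choose t with a ≤ H t < a + H
    have hHZ : (0 : ℤ) < H := by exact_mod_cast hH1
    obtain ⟨t, ht1, ht2⟩ : ∃ t : ℤ, a ≤ H * t ∧ H * t < a + H := by
      refine ⟨-((-a) / H), ?_, ?_⟩
      · have := Int.mul_ediv_self_le (x := -a) (k := (H : ℤ)) hHZ.ne'
        nlinarith
      · have := Int.lt_mul_ediv_self_add (x := -a) (k := (H : ℤ)) hHZ
        nlinarith
    refine ⟨b t + 2 * d, ?_, ?_, ?_⟩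
    · have := hb1 t
      omega
    · have := hb2 t
      push_cast at this
      omega
    · intro f hf hE
      right
      exact ⟨t, by simpa using hf, hE⟩

/-- The finite-stage construction. -/
lemma finite_stage (E : Set ℤ) (F : ℕ → Finset ℤ) (Rr : ℕ → ℕ) (hRr : ∀ L, L ≤ Rr L) (d : ℕ → ℕ)
    (hd : ∀ k, 1 ≤ d k) (hFd : ∀ k, ∀ f ∈ F k, -(d k : ℤ) < f ∧ f < d k)
    (hd' : ∀ k, Rr (4 * d k) ≤ d (k + 1)) (hdd : ∀ k, d k ≤ d (k + 1))
    (hF : ∀ k, ∀ m : ℤ, ∀ L : ℕ, GapProp {n | n - m ∈ F k ∧ n ∈ E} L (Rr L)) (j : ℕ) :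
    ∀ k, ∃ Rem : Set ℤ, (∀ L, Rr L ≤ d k → GapProp Rem L (Rr L)) ∧
      ∀ i, k ≤ i → i < k + j → ∀ a : ℤ, ∃ m : ℤ, a ≤ m ∧ m < a + 2 * Rr (4 * d i) ∧
        ∀ f ∈ F i, m + f ∈ E → m + f ∈ Rem := by
  induction j with
  | zero =>
    intro k
    refine ⟨∅, ?_, ?_⟩
    · intro L _ a
      exact ⟨a, le_refl _, by have := hRr L; omega, fun n _ _ h => h⟩
    · intro i h1 h2
      omega
  | succ j ih =>
    intro k
    obtain ⟨Rem', h1, h2⟩ := ih (k + 1)
    obtain ⟨Rem, g1, g2, g3⟩ := step E (F k) Rr hRr (d k) (d (k + 1)) (hd k) (hFd k) (hd' k) (hdd k)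
      (hF k) Rem' h1
    refine ⟨Rem, g2, ?_⟩
    intro i hi1 hi2 a
    rcases Nat.eq_or_lt_of_le hi1 with rfl | hlt
    · exact g3 a
    · obtain ⟨m, hm1, hm2, hm3⟩ := h2 i hlt (by omega) a
      exact ⟨m, hm1, hm2, fun f hf hE => g1 (hm3 f hf hE)⟩

/-- The combinatorial lemma. -/
lemma comb (E : Set ℤ) (g : ℕ) (hE : ∀ a : ℤ, ∃ e ∈ E, a ≤ e ∧ e < a + g)
    (F : ℕ → Finset ℤ) (Rr : ℕ → ℕ) (hRr : ∀ L, L ≤ Rr L)
    (hF : ∀ k, ∀ m : ℤ, ∀ L : ℕ, GapProp {n | n - m ∈ F k ∧ n ∈ E} L (Rr L)) :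
    ∃ (B : Set ℤ) (D0 : ℕ) (D : ℕ → ℕ), (∀ a : ℤ, ∃ e ∈ B, a ≤ e ∧ e < a + D0) ∧
      ∀ k, ∀ a : ℤ, ∃ m : ℤ, a ≤ m ∧ m < a + D k ∧ ∀ f ∈ F k, m + f ∉ B := by
  classical
  -- bound for F k
  have hl : ∀ k, ∃ l : ℕ, ∀ f ∈ F k, -(l : ℤ) < f ∧ f < l := by
    intro k
    refine ⟨(F k).sum (fun f => f.natAbs) + 1, ?_⟩
    intro f hf
    have : f.natAbs ≤ (F k).sum (fun f => f.natAbs) :=
      Finset.single_le_sum (f := fun f : ℤ => f.natAbs) (fun _ _ => Nat.zero_le _) hf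
    omega
  choose l hl using hl
  -- the sequence d
  obtain ⟨d, hd0, hds⟩ : ∃ d : ℕ → ℕ, d 0 = max (max (Rr g) (l 0)) 1 ∧
      ∀ k, d (k + 1) = max (max (Rr (4 * d k)) (l (k + 1))) (d k) :=
    ⟨fun k => Nat.rec (max (max (Rr g) (l 0)) 1)
      (fun k dk => max (max (Rr (4 * dk)) (l (k + 1))) dk) k, rfl, fun k => rfl⟩
  have hdd : ∀ k, d k ≤ d (k + 1) := fun k => by rw [hds]; exact le_max_right _ _
  have hd1 : ∀ k, 1 ≤ d k := by
    intro k
    induction k with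
    | zero => rw [hd0]; exact le_max_right _ _
    | succ k ih => exact ih.trans (hdd k)
  have hd' : ∀ k, Rr (4 * d k) ≤ d (k + 1) := fun k => by
    rw [hds]; exact (le_max_left _ _).trans (le_max_left _ _)
  have hld : ∀ k, l k ≤ d k := by
    intro k
    cases k with
    | zero => rw [hd0]; exact (le_max_right _ _).trans (le_max_left _ _)
    | succ k => rw [hds]; exact (le_max_right _ _).trans (le_max_left _ _)
  have hFd : ∀ k, ∀ f ∈ F k, -(d k : ℤ) < f ∧ f < d k := by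
    intro k f hf
    have h1 := hl k f hf
    have h2 := hld k
    omega
  have hst := fun j => finite_stage E F Rr hRr d hd1 hFd hd' hdd hF j 0
  choose Rem hRem1 hRem2 using hst
  -- ultrafilter limit
  let 𝒰 : Ultrafilter ℕ := Filter.hyperfilter ℕ
  refine ⟨{e | ∀ᶠ n in (𝒰 : Filter ℕ), e ∈ E ∧ e ∉ Rem n}, Rr g, fun k => 2 * Rr (4 * d k), ?_, ?_⟩
  · intro a
    have h : ∀ n, ∃ e ∈ Finset.Ico a (a + (Rr g : ℤ)), e ∈ E ∧ e ∉ Rem n := by
      intro n
      obtain ⟨b, hb1, hb2, hb3⟩ := hRem1 n g (by rw [hd0]; exact (le_max_left _ _).trans (le_max_left _ _)) a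
      obtain ⟨e, he, he1, he2⟩ := hE b
      exact ⟨e, by rw [Finset.mem_Ico]; omega, he, hb3 e he1 he2⟩
    have h' : ∀ᶠ n in (𝒰 : Filter ℕ), ∃ e ∈ ((Finset.Ico a (a + (Rr g : ℤ)) : Finset ℤ) : Set ℤ), e ∈ E ∧ e ∉ Rem n :=
      Filter.Eventually.of_forall (fun n => by simpa using h n)
    rw [Ultrafilter.eventually_exists_mem_iff (Finset.finite_toSet _)] at h'
    obtain ⟨e, he, hev⟩ := h'
    rw [Finset.mem_coe, Finset.mem_Ico] at he
    exact ⟨e, hev, he.1, he.2⟩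
  · intro k a
    obtain ⟨w, hw⟩ : ∃ w : ℕ, w = 2 * Rr (4 * d k) := ⟨_, rfl⟩
    have h : ∀ᶠ n in (𝒰 : Filter ℕ), ∃ m ∈ ((Finset.Ico a (a + (w : ℤ)) : Finset ℤ) : Set ℤ),
        ∀ f ∈ F k, m + f ∈ E → m + f ∈ Rem n := by
      have hk : ∀ᶠ n in (𝒰 : Filter ℕ), k < n := by
        have : ∀ᶠ n in Filter.cofinite, k < n := by
          rw [Nat.cofinite_eq_atTop]
          exact Filter.eventually_gt_atTop k
        exact Filter.hyperfilter_le_cofinite this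
      refine hk.mono ?_
      intro n hn
      obtain ⟨m, hm1, hm2, hm3⟩ := hRem2 n k (Nat.zero_le _) (by omega) a
      exact ⟨m, by rw [Finset.mem_coe, Finset.mem_Ico]; omega, hm3⟩
    rw [Ultrafilter.eventually_exists_mem_iff (Finset.finite_toSet _)] at h
    obtain ⟨m, hm, hev⟩ := h
    rw [Finset.mem_coe, Finset.mem_Ico] at hm
    refine ⟨m, hm.1, by show m < a + ((2 * Rr (4 * d k) : ℕ) : ℤ); omega, ?_⟩
    intro f hf hB
    have : ∀ᶠ n in (𝒰 : Filter ℕ), False := by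
      filter_upwards [hev, hB] with n h1 h2
      exact h2.2 (h1 f hf h2.1)
    exact (Filter.eventually_false_iff_eq_bot.mp this ▸ 𝒰.neBot).ne rfl

end Pool.Agent.W5d027a
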