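import Mathlib
import Pool.Agent.W5d027a.Comb

/-!
Topological dynamics part for MP_5d027a_an.
-/

namespace Pool.Agent.W5d027a

open Set Topology

universe u v

section Basic

variable {X : Type u} [TopologicalSpace X]

/-- A minimal (closed nonempty invariant) subset. -/
structure IsMinSet (T : X ≃ₜ X) (M : Set X) : Prop where
  closed : IsClosed M
  nonempty : M.Nonempty
  inv : ∀ x, T x ∈ M ↔ x ∈ M
  min : ∀ A : Set X, A ⊆ M → IsClosed A → A.Nonempty → (∀ x, T x ∈ A ↔ x ∈ A) → A = M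

lemma zpow_mem_iff (T : X ≃ₜ X) {A : Set X} (hA : ∀ x, T x ∈ A ↔ x ∈ A) (n : ℤ) (x : X) :
    (T ^ n) x ∈ A ↔ x ∈ A := by
  induction n generalizing x with
  | zero => simp
  | succ n ih =>
    rw [zpow_add_one, Homeomorph.mul_apply, ih, hA]
  | pred n ih =>
    rw [zpow_sub_one, Homeomorph.mul_apply, ih]
    rw [← hA (T⁻¹ x)]
    simp

lemma zpow_one_mul_aux (T : X ≃ₜ X) (x : X) (b : ℤ) : (T ^ b) x = (T ^ (b - 1)) (T x) := by
  rw [← Homeomorph.mul_apply, ← zpow_add_one, sub_add_cancel]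

/-- Existence of minimal subsets. -/
lemma exists_minSet [CompactSpace X] (T : X ≃ₜ X) (A : Set X) (hc : IsClosed A)
    (hne : A.Nonempty) (hinv : ∀ x, T x ∈ A ↔ x ∈ A) : ∃ M ⊆ A, IsMinSet T M := by
  let S : Set (Set X) := {B | B ⊆ A ∧ IsClosed B ∧ B.Nonempty ∧ ∀ x, T x ∈ B ↔ x ∈ B}
  have hS : ∀ c ⊆ S, IsChain (· ⊆ ·) c → ∃ lb ∈ S, ∀ s ∈ c, lb ⊆ s := by
    intro c hcS hchain
    by_cases hcn : c.Nonempty
    · refine ⟨⋂₀ c, ⟨?_, ?_, ?_, ?_⟩, fun s hs => sInter_subset_of_mem hs⟩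
      · obtain ⟨s, hs⟩ := hcn
        exact (sInter_subset_of_mem hs).trans (hcS hs).1
      · exact isClosed_sInter fun s hs => (hcS hs).2.1
      · have : Nonempty c := hcn.to_subtype
        apply IsCompact.nonempty_sInter_of_directed_nonempty_isCompact_isClosed
        · intro s hs t ht
          rcases hchain.total hs ht with h | h
          · exact ⟨s, hs, subset_refl _, h⟩
          · exact ⟨t, ht, h, subset_refl _⟩
        · exact fun s hs => (hcS hs).2.2.1
        · exact fun s hs => (hcS hs).2.1.isCompact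
        · exact fun s hs => (hcS hs).2.1
      · intro x
        simp only [mem_sInter]
        exact forall₂_congr fun s hs => (hcS hs).2.2.2 x
    · rw [not_nonempty_iff_eq_empty] at hcn
      subst hcn
      exact ⟨A, ⟨subset_refl _, hc, hne, hinv⟩, by simp⟩
  obtain ⟨M, hM⟩ := zorn_superset S hS
  refine ⟨M, hM.prop.1, hM.prop.2.1, hM.prop.2.2.1, hM.prop.2.2.2, ?_⟩
  intro B hBM hBc hBn hBi
  exact subset_antisymm hBM (hM.le_of_le (y := B) ⟨hBM.trans hM.prop.1, hBc, hBn, hBi⟩ hBM)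

/-- The whole space as minimal set. -/
lemma IsMinSet.univ_of (T : X ≃ₜ X) [Nonempty X]
    (h : ∀ A : Set X, IsClosed A → A.Nonempty → (∀ x, T x ∈ A ↔ x ∈ A) → A = univ) :
    IsMinSet T (univ : Set X) :=
  ⟨isClosed_univ, univ_nonempty, fun x => by simp, fun A _ h1 h2 h3 => h A h1 h2 h3⟩

/-- Image of a closed invariant set under an equivariant map. -/
lemma image_inv {Y : Type v} [TopologicalSpace Y] (T : X ≃ₜ X) (S : Y ≃ₜ Y) (f : X → Y)
    (hf : ∀ x, f (T x) = S (f x)) {A : Set X} (hA : ∀ x, T x ∈ A ↔ x ∈ A) :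
    ∀ y, S y ∈ f '' A ↔ y ∈ f '' A := by
  intro y
  constructor
  · rintro ⟨x, hx, hxy⟩
    refine ⟨T.symm x, ?_, ?_⟩
    · rw [← hA]; simpa using hx
    · apply S.injective
      rw [← hf, Homeomorph.apply_symm_apply, hxy]
  · rintro ⟨x, hx, rfl⟩
    exact ⟨T x, (hA x).2 hx, hf x⟩

end Basic

/-- Disjointness from all minimal systems, in the ambient form. -/
def DM {X : Type u} [TopologicalSpace X] (T : X ≃ₜ X) : Prop :=
  ∀ (Ω : Type u) [TopologicalSpace Ω] [CompactSpace Ω] [TopologicalSpace.MetrizableSpace Ω]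
    (G : Ω ≃ₜ Ω) (M : Set Ω), IsMinSet G M → ∀ J : Set (X × Ω), IsClosed J →
    (∀ p : X × Ω, (T p.1, G p.2) ∈ J ↔ p ∈ J) → (∀ x, ∃ ω ∈ M, (x, ω) ∈ J) →
    ∀ x, ∀ ω ∈ M, (x, ω) ∈ J

section Shift

/-- The full shift over two symbols in universe `u`. -/
abbrev Sig : Type u := ℤ → ULift.{u} Bool

/-- The shift homeomorphism. -/
def shift : Sig.{u} ≃ₜ Sig.{u} where
  toFun x := fun n => x (n + 1)
  invFun x := fun n => x (n - 1)
  left_inv x := by funext n; simp
  right_inv x := by funext n; simp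
  continuous_toFun := by fun_prop
  continuous_invFun := by fun_prop

lemma shift_zpow (n : ℤ) (x : Sig.{u}) (m : ℤ) : ((shift ^ n) x) m = x (m + n) := by
  induction n generalizing m x with
  | zero => simp
  | succ n ih =>
    rw [zpow_add_one, Homeomorph.mul_apply, ih]
    show x (m + n + 1) = _
    congr 1; ring
  | pred n ih =>
    rw [zpow_sub_one, Homeomorph.mul_apply, ih]
    show x (m + -n - 1) = _
    congr 1; ring

end Shift


section Lemmas

lemma prodCongr_zpow {Y : Type u} {Z : Type v} [TopologicalSpace Y] [TopologicalSpace Z]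
    (S : Y ≃ₜ Y) (R : Z ≃ₜ Z) (n : ℤ) (p : Y × Z) :
    ((S.prodCongr R) ^ n) p = ((S ^ n) p.1, (R ^ n) p.2) := by
  induction n generalizing p with
  | zero => simp
  | succ n ih =>
    rw [zpow_add_one, zpow_add_one, zpow_add_one, Homeomorph.mul_apply, ih]
    rfl
  | pred n ih =>
    rw [zpow_sub_one, zpow_sub_one, zpow_sub_one, Homeomorph.mul_apply, ih]
    rfl

/-- Image of a minimal set under an equivariant continuous map. -/
lemma IsMinSet.image {X : Type u} {Y : Type v} [TopologicalSpace X] [TopologicalSpace Y]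
    [CompactSpace X] [T2Space Y] {T : X ≃ₜ X} {S : Y ≃ₜ Y} {M : Set X} (hM : IsMinSet T M)
    (f : X → Y) (hfc : Continuous f) (hf : ∀ x, f (T x) = S (f x)) : IsMinSet S (f '' M) := by
  refine ⟨(hM.closed.isCompact.image hfc).isClosed, hM.nonempty.image f,
    image_inv T S f hf hM.inv, ?_⟩
  intro A hA hAc hAn hAi
  have h1 : M ∩ f ⁻¹' A = M := by
    apply hM.min _ inter_subset_left (hM.closed.inter (hAc.preimage hfc))
    · obtain ⟨y, hy⟩ := hAn
      obtain ⟨x, hx, rfl⟩ := hA hy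
      exact ⟨x, hx, hy⟩
    · intro x
      simp only [mem_inter_iff, mem_preimage, hM.inv, hf, hAi]
  apply subset_antisymm hA
  rintro _ ⟨x, hx, rfl⟩
  rw [← h1] at hx
  exact hx.2

/-- Uniform gaps in visits to a closed set without minimal points. -/
lemma exists_gap {Ω : Type u} [TopologicalSpace Ω] [CompactSpace Ω] (G : Ω ≃ₜ Ω) (K : Set Ω)
    (hK : IsClosed K) (hno : ∀ M, IsMinSet G M → ∀ x ∈ M, x ∉ K) (L : ℕ) :
    ∃ r : ℕ, L ≤ r ∧ ∀ p : Ω, GapProp {n | (G ^ n) p ∈ K} L r := by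
  let U : ℤ → Set Ω := fun b => ⋂ n ∈ Finset.Ico b (b + L), (fun q => (G ^ n) q) ⁻¹' Kᶜ
  have hUo : ∀ b, IsOpen (U b) := by
    intro b
    apply isOpen_biInter_finset
    intro n _
    exact hK.isOpen_compl.preimage (G ^ n).continuous
  have hmemU : ∀ b q, q ∈ U b ↔ ∀ n : ℤ, b ≤ n → n < b + L → (G ^ n) q ∉ K := by
    intro b q
    simp only [U, mem_iInter, Finset.mem_Ico, mem_preimage, mem_compl_iff, and_imp]
  have hshift : ∀ (a : ℤ) b q, (G ^ a) q ∈ U b ↔ q ∈ U (b + a) := by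
    intro a b q
    rw [hmemU, hmemU]
    constructor
    · intro h n h1 h2
      have := h (n - a) (by omega) (by omega)
      rwa [← Homeomorph.mul_apply, ← zpow_add, sub_add_cancel] at this
    · intro h n h1 h2
      rw [← Homeomorph.mul_apply, ← zpow_add]
      exact h (n + a) (by omega) (by omega)
  have hcover : ∀ q, ∃ b, q ∈ U b := by
    by_contra hcon
    push Not at hcon
    obtain ⟨q0, hq0⟩ := hcon
    let D : Set Ω := ⋂ b, (U b)ᶜ
    have hDc : IsClosed D := isClosed_iInter fun b => (hUo b).isClosed_compl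
    have hDi : ∀ x, G x ∈ D ↔ x ∈ D := by
      intro x
      simp only [D, mem_iInter, mem_compl_iff]
      have h1 : ∀ b, G x ∈ U b ↔ x ∈ U (b + 1) := by
        intro b
        have := hshift 1 b x
        rwa [zpow_one] at this
      constructor
      · intro h b
        have := h (b - 1)
        rwa [h1, sub_add_cancel] at this
      · intro h b
        rw [h1]
        exact h _
    obtain ⟨M, hMD, hM⟩ := exists_minSet G D hDc ⟨q0, by simpa [D] using hq0⟩ hDi
    obtain ⟨x, hx⟩ := hM.nonempty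
    have hxD := hMD hx
    simp only [D, mem_iInter, mem_compl_iff] at hxD
    apply hxD 0
    rw [hmemU]
    intro n _ _
    exact hno M hM _ ((zpow_mem_iff G hM.inv n x).2 hx)
  obtain ⟨t, ht⟩ := isCompact_univ.elim_finite_subcover U hUo
    (fun q _ => mem_iUnion.2 (hcover q))
  obtain ⟨R0, hR0⟩ : ∃ R0 : ℕ, ∀ b ∈ t, -(R0 : ℤ) ≤ b ∧ b ≤ R0 := by
    refine ⟨t.sum (fun f => f.natAbs), ?_⟩
    intro f hf
    have : f.natAbs ≤ t.sum (fun f => f.natAbs) :=
      Finset.single_le_sum (f := fun f : ℤ => f.natAbs) (fun _ _ => Nat.zero_le _) hf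
    omega
  refine ⟨2 * R0 + L, by omega, ?_⟩
  intro p a
  have h1 := ht (mem_univ ((G ^ (a + R0)) p))
  simp only [mem_iUnion] at h1
  obtain ⟨b, hb, hbU⟩ := h1
  rw [hshift, hmemU] at hbU
  have hb' := hR0 b hb
  refine ⟨b + (a + R0), by omega, by push_cast; omega, ?_⟩
  intro n h1 h2
  exact hbU n h1 h2

/-- Return times to an open set meeting a minimal set are syndetic. -/
lemma syndetic {Ω : Type u} [TopologicalSpace Ω] [CompactSpace Ω] (G : Ω ≃ₜ Ω) {M : Set Ω}
    (hM : IsMinSet G M) (V : Set Ω) (hV : IsOpen V) (hVM : (M ∩ V).Nonempty) :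
    ∃ g : ℕ, ∀ z ∈ M, ∀ a : ℤ, ∃ e : ℤ, (G ^ e) z ∈ V ∧ a ≤ e ∧ e < a + g := by
  let U : ℤ → Set Ω := fun b => (fun q => (G ^ b) q) ⁻¹' V
  have hUo : ∀ b, IsOpen (U b) := fun b => hV.preimage (G ^ b).continuous
  have hcover : M ⊆ ⋃ b, U b := by
    by_contra hcon
    rw [not_subset] at hcon
    obtain ⟨q, hqM, hq⟩ := hcon
    let A : Set Ω := M ∩ (⋃ b, U b)ᶜ
    have hAi : ∀ x, G x ∈ A ↔ x ∈ A := by
      intro x
      simp only [A, mem_inter_iff, mem_compl_iff, mem_iUnion, hM.inv, not_exists, U, mem_preimage]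
      refine and_congr_right fun _ => ⟨fun h b => ?_, fun h b => ?_⟩
      · have := h (b - 1)
        rwa [← zpow_one_mul_aux G x b] at this
      · have := h (b + 1)
        rwa [zpow_add_one, Homeomorph.mul_apply] at this
    have := hM.min A inter_subset_left (hM.closed.inter (isOpen_iUnion hUo).isClosed_compl)
      ⟨q, hqM, hq⟩ hAi
    obtain ⟨v, hvM, hvV⟩ := hVM
    rw [← this] at hvM
    apply hvM.2
    rw [mem_iUnion]
    exact ⟨0, by simpa [U] using hvV⟩
  obtain ⟨t, ht⟩ := hM.closed.isCompact.elim_finite_subcover U hUo hcover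
  obtain ⟨R0, hR0⟩ : ∃ R0 : ℕ, ∀ b ∈ t, -(R0 : ℤ) ≤ b ∧ b ≤ R0 := by
    refine ⟨t.sum (fun f => f.natAbs), ?_⟩
    intro f hf
    have : f.natAbs ≤ t.sum (fun f => f.natAbs) :=
      Finset.single_le_sum (f := fun f : ℤ => f.natAbs) (fun _ _ => Nat.zero_le _) hf
    omega
  refine ⟨2 * R0 + 1, ?_⟩
  intro z hz a
  have h1 := ht ((zpow_mem_iff G hM.inv (a + R0) z).2 hz)
  simp only [mem_iUnion] at h1
  obtain ⟨b, hb, hbU⟩ := h1
  have hb' := hR0 b hb
  refine ⟨b + (a + R0), ?_, by omega, by push_cast; omega⟩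
  rw [zpow_add, Homeomorph.mul_apply]
  exact hbU

end Lemmas

end Pool.Agent.W5d027a
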