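import Mathlib
import Pool.Agent.W5d027a.Dyn

/-!
If `S` is disjoint from all minimal systems and `M` is a minimal set of `G`, then the minimal
points of `S × G` are dense in `Y × M`.
-/

namespace Pool.Agent.W5d027a

open Set Topology

universe u

/-- The key proposition: density of minimal points in `Y × M`. -/
theorem dense_min {Y Ω : Type u} [TopologicalSpace Y] [CompactSpace Y] [T2Space Y]
    [TopologicalSpace Ω] [CompactSpace Ω] [T2Space Ω] (S : Y ≃ₜ Y) (hS : DM S)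
    (G : Ω ≃ₜ Ω) (M : Set Ω) (hM : IsMinSet G M) (P0 : Set Y) (hP0 : IsOpen P0)
    (hP0n : P0.Nonempty) (V0 : Set Ω) (hV0 : IsOpen V0) (hV0n : (M ∩ V0).Nonempty) :
    ∃ W : Set (Y × Ω), IsMinSet (S.prodCongr G) W ∧ ∃ w ∈ W, w.1 ∈ P0 ∧ w.2 ∈ V0 ∧ w.2 ∈ M := by
  classical
  by_contra hcon
  push Not at hcon
  obtain ⟨y0, hy0⟩ := hP0n
  obtain ⟨v0, hv0M, hv0⟩ := hV0n
  obtain ⟨CP, hCP, hCPc, hCPs⟩ := exists_mem_nhds_isClosed_subset (hP0.mem_nhds hy0)
  obtain ⟨CV, hCV, hCVc, hCVs⟩ := exists_mem_nhds_isClosed_subset (hV0.mem_nhds hv0)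
  let P := interior CP
  let V := interior CV
  have hPo : IsOpen P := isOpen_interior
  have hVo : IsOpen V := isOpen_interior
  have hy0P : y0 ∈ P := mem_interior_iff_mem_nhds.2 hCP
  have hv0V : v0 ∈ V := mem_interior_iff_mem_nhds.2 hCV
  let K : Set (Y × Ω) := {p | p.1 ∈ CP ∧ p.2 ∈ CV ∧ p.2 ∈ M}
  have hK : IsClosed K := (hCPc.preimage continuous_fst).inter
    ((hCVc.preimage continuous_snd).inter (hM.closed.preimage continuous_snd))
  have hgap := exists_gap (S.prodCongr G) K hK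
    (fun N hN x hx hxK => hcon N hN x hx (hCPs hxK.1) (hCVs hxK.2.1) hxK.2.2)
  choose Rr hRr hgap using hgap
  obtain ⟨g, hg⟩ := syndetic G hM V hVo ⟨v0, hv0M, hv0V⟩
  let E : Set ℤ := {n | (G ^ n) v0 ∈ V}
  -- enumeration of the finite patterns
  let α := {F : Finset ℤ // ∃ y : Y, ∀ n ∈ F, (S ^ n) y ∈ P}
  have hα : Nonempty α := ⟨⟨∅, y0, by simp⟩⟩
  obtain ⟨enum, henum⟩ := exists_surjective_nat α
  have hF : ∀ k, ∀ m : ℤ, ∀ L : ℕ, GapProp {n | n - m ∈ (enum k).1 ∧ n ∈ E} L (Rr L) := by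
    intro k m L a
    obtain ⟨y, hy⟩ := (enum k).2
    obtain ⟨b, hb1, hb2, hb3⟩ := hgap L ((S ^ (-m)) y, v0) a
    refine ⟨b, hb1, hb2, ?_⟩
    intro n hn1 hn2 hn
    apply hb3 n hn1 hn2
    show ((S.prodCongr G) ^ n) ((S ^ (-m)) y, v0) ∈ K
    rw [prodCongr_zpow]
    refine ⟨?_, interior_subset hn.2, (zpow_mem_iff G hM.inv n v0).2 hv0M⟩
    have := hy _ hn.1
    rw [sub_eq_add_neg, zpow_add, Homeomorph.mul_apply] at this
    exact interior_subset this
  obtain ⟨B, D0, D, hB0, hBk⟩ := comb E g (fun a => hg v0 hv0M a) (fun k => (enum k).1) Rr hRr hF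
  -- the subshift
  let tt : ULift.{u} Bool := ULift.up true
  let ff : ULift.{u} Bool := ULift.up false
  have hne : ∀ b : ULift.{u} Bool, b ≠ tt → b = ff := by
    rintro ⟨b⟩ hb
    cases b
    · rfl
    · exact absurd rfl hb
  have htf : ff ≠ tt := by
    intro h
    exact Bool.false_ne_true (ULift.up.inj h)
  let QQ : Set Sig.{u} := (⋂ a : ℤ, ⋃ e ∈ Finset.Ico a (a + D0), {ξ | ξ e = tt}) ∩
    (⋂ k : ℕ, ⋂ a : ℤ, ⋃ m ∈ Finset.Ico a (a + D k), ⋂ f ∈ (enum k).1, {ξ | ξ (m + f) = ff})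
  have hclo : ∀ (e : ℤ) (c : ULift.{u} Bool), IsClosed {ξ : Sig.{u} | ξ e = c} := by
    intro e c
    exact isClosed_eq (continuous_apply e) continuous_const
  have hQQc : IsClosed QQ := by
    apply IsClosed.inter
    · exact isClosed_iInter fun a => isClosed_biUnion_finset fun e _ => hclo e tt
    · exact isClosed_iInter fun k => isClosed_iInter fun a => isClosed_biUnion_finset fun m _ =>
        isClosed_iInter fun f => isClosed_iInter fun _ => hclo (m + f) ff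
  have hmemQQ : ∀ ξ, ξ ∈ QQ ↔ (∀ a : ℤ, ∃ e : ℤ, (a ≤ e ∧ e < a + D0) ∧ ξ e = tt) ∧
      ∀ (k : ℕ) (a : ℤ), ∃ m : ℤ, (a ≤ m ∧ m < a + D k) ∧ ∀ f ∈ (enum k).1, ξ (m + f) = ff := by
    intro ξ
    simp only [QQ, mem_inter_iff, mem_iInter, mem_iUnion, Finset.mem_Ico, exists_prop]
    rfl
  have hQQi : ∀ ξ, shift ξ ∈ QQ ↔ ξ ∈ QQ := by
    intro ξ
    rw [hmemQQ, hmemQQ]
    have hs : ∀ n, (shift ξ) n = ξ (n + 1) := fun n => rfl
    simp only [hs]
    constructor
    · rintro ⟨h1, h2⟩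
      refine ⟨fun a => ?_, fun k a => ?_⟩
      · obtain ⟨e, he, h⟩ := h1 (a - 1)
        exact ⟨e + 1, by omega, h⟩
      · obtain ⟨m, hm, h⟩ := h2 k (a - 1)
        refine ⟨m + 1, by omega, fun f hf => ?_⟩
        rw [add_right_comm]
        exact h f hf
    · rintro ⟨h1, h2⟩
      refine ⟨fun a => ?_, fun k a => ?_⟩
      · obtain ⟨e, he, h⟩ := h1 (a + 1)
        refine ⟨e - 1, by omega, ?_⟩
        rwa [sub_add_cancel]
      · obtain ⟨m, hm, h⟩ := h2 k (a + 1)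
        refine ⟨m - 1, by omega, fun f hf => ?_⟩
        have := h f hf
        rwa [show m - 1 + f + 1 = m + f by ring]
  have hQQn : QQ.Nonempty := by
    refine ⟨fun e => if e ∈ B then tt else ff, ?_⟩
    rw [hmemQQ]
    refine ⟨fun a => ?_, fun k a => ?_⟩
    · obtain ⟨e, he, h1, h2⟩ := hB0 a
      exact ⟨e, ⟨h1, h2⟩, if_pos he⟩
    · obtain ⟨m, h1, h2, h3⟩ := hBk k a
      exact ⟨m, ⟨h1, h2⟩, fun f hf => if_neg (h3 f hf)⟩
  obtain ⟨W, hWQQ, hW⟩ := exists_minSet shift QQ hQQc hQQn hQQi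
  -- the joining
  let J : Set (Y × Sig.{u}) := ⋂ n : ℤ, {p | (S ^ n) p.1 ∈ P ∧ p.2 n = tt}ᶜ
  have hJc : IsClosed J := by
    apply isClosed_iInter
    intro n
    apply IsOpen.isClosed_compl
    apply IsOpen.inter
    · exact hPo.preimage ((S ^ n).continuous.comp continuous_fst)
    · have hcont : Continuous (fun p : Y × Sig.{u} => p.2 n) :=
        (continuous_apply n).comp continuous_snd
      exact (isOpen_discrete ({tt} : Set (ULift.{u} Bool))).preimage hcont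
  have hmemJ : ∀ p : Y × Sig.{u}, p ∈ J ↔ ∀ n : ℤ, (S ^ n) p.1 ∈ P → p.2 n ≠ tt := by
    intro p
    simp only [J, mem_iInter, mem_compl_iff]
    exact forall_congr' fun n => not_and
  have hJi : ∀ p : Y × Sig.{u}, (S p.1, shift p.2) ∈ J ↔ p ∈ J := by
    intro p
    rw [hmemJ, hmemJ]
    constructor
    · intro h n hn
      have := h (n - 1) (by rwa [← zpow_one_mul_aux])
      have h2 : (shift p.2) (n - 1) = p.2 n := by
        show p.2 (n - 1 + 1) = p.2 n
        rw [sub_add_cancel]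
      exact fun hc => this (by show (shift p.2) (n - 1) = tt; rw [h2]; exact hc)
    · intro h n hn
      have h3 : (S ^ n) (S p.1) = (S ^ (n + 1)) p.1 := by
        rw [zpow_add_one, Homeomorph.mul_apply]
      exact h (n + 1) (by rw [← h3]; exact hn)
  have hJp : ∀ y, ∃ ξ ∈ W, (y, ξ) ∈ J := by
    intro y
    obtain ⟨ξ0, hξ0⟩ := hW.nonempty
    let t : ℕ → Set Sig.{u} := fun N => W ∩ ⋂ n ∈ Finset.Icc (-(N : ℤ)) N, {ξ | (S ^ n) y ∈ P → ξ n = ff}
    have htc : ∀ N, IsClosed (t N) := by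
      intro N
      apply hW.closed.inter
      apply isClosed_iInter; intro n
      apply isClosed_iInter; intro _
      by_cases hn : (S ^ n) y ∈ P
      · simpa [hn] using hclo n ff
      · simp [hn]
    have htn : ∀ N, (t N).Nonempty := by
      intro N
      let F : Finset ℤ := (Finset.Icc (-(N : ℤ)) N).filter (fun n => (S ^ n) y ∈ P)
      obtain ⟨k, hk⟩ := henum ⟨F, y, fun n hn => (Finset.mem_filter.1 hn).2⟩
      obtain ⟨m, -, hm⟩ := ((hmemQQ ξ0).1 (hWQQ hξ0)).2 k 0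
      rw [hk] at hm
      refine ⟨(shift ^ m) ξ0, (zpow_mem_iff shift hW.inv m ξ0).2 hξ0, ?_⟩
      simp only [mem_iInter]
      intro n hn hnP
      rw [shift_zpow, add_comm]
      exact hm n (Finset.mem_filter.2 ⟨hn, hnP⟩)
    have htd : ∀ N, t (N + 1) ⊆ t N := by
      intro N ξ hξ
      refine ⟨hξ.1, ?_⟩
      have h2 := hξ.2
      simp only [mem_iInter] at h2 ⊢
      intro n hn
      apply h2 n
      rw [Finset.mem_Icc] at hn ⊢
      push_cast
      omega
    obtain ⟨ξ, hξ⟩ := IsCompact.nonempty_iInter_of_sequence_nonempty_isCompact_isClosed t htd htn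
      (htc 0).isCompact htc
    rw [mem_iInter] at hξ
    refine ⟨ξ, (hξ 0).1, ?_⟩
    rw [hmemJ]
    intro n hn h
    have h2 := (hξ n.natAbs).2
    simp only [mem_iInter] at h2
    have h3 := h2 n (by rw [Finset.mem_Icc]; omega) hn
    have h4 : ξ n = tt := h
    rw [h3] at h4
    exact htf h4
  have hall := hS Sig.{u} shift W hW J hJc hJi hJp
  obtain ⟨ξ, hξ⟩ := hW.nonempty
  obtain ⟨e, -, he⟩ := ((hmemQQ ξ).1 (hWQQ hξ)).1 0
  have := (hmemJ _).1 (hall ((S ^ (-e)) y0) ξ hξ) e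
  apply this
  · show (S ^ e) ((S ^ (-e)) y0) ∈ P
    rw [← Homeomorph.mul_apply, ← zpow_add, add_neg_cancel, zpow_zero]
    exact hy0P
  · exact he

end Pool.Agent.W5d027a
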