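import Mathlib
import Pool.Agent.W5d027a.Claim

/-!
Products of systems disjoint from all minimal systems are disjoint from all minimal systems
(ambient form).
-/

namespace Pool.Agent.W5d027a

open Set Topology

universe u

theorem main {X Y : Type u} [TopologicalSpace X] [CompactSpace X]
    [TopologicalSpace.MetrizableSpace X] [Nonempty X] [TopologicalSpace Y] [CompactSpace Y]
    [TopologicalSpace.MetrizableSpace Y] (T : X ≃ₜ X) (S : Y ≃ₜ Y) (hT : DM T) (hS : DM S) :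
    DM (T.prodCongr S) := by
  classical
  intro Ω _ _ _ G M hM J hJc hJi hJp
  by_contra hcon
  push Not at hcon
  obtain ⟨⟨x0, y0⟩, ω0, hω0, hnJ⟩ := hcon
  -- an open box missing J
  obtain ⟨U, V0, hU, hV0, hxy, hωV, hbox⟩ := isOpen_prod_iff.1 hJc.isOpen_compl (x0, y0) ω0 hnJ
  obtain ⟨O, P0, hO, hP0, hxO, hyP, hbox2⟩ := isOpen_prod_iff.1 hU x0 y0 hxy
  have hmiss : ∀ x ∈ O, ∀ y ∈ P0, ∀ ω ∈ V0, ((x, y), ω) ∉ J := by
    intro x hx y hy ω hω
    exact hbox (show ((x, y), ω) ∈ U ×ˢ V0 from ⟨hbox2 ⟨hx, hy⟩, hω⟩)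
  -- Step (b)
  have hb : ∀ N, IsMinSet T N → ∀ y, ∀ ω ∈ M, ∃ x ∈ N, ((x, y), ω) ∈ J := by
    intro N hN
    let f : (X × Y) × Ω → Y × Ω := fun p => (p.1.2, p.2)
    have hf : Continuous f := by fun_prop
    let A : Set ((X × Y) × Ω) := {p | p.1.1 ∈ N} ∩ J
    have hA : IsClosed A := (hN.closed.preimage (by fun_prop : Continuous
      (fun p : (X × Y) × Ω => p.1.1))).inter hJc
    have hAi : ∀ p : (X × Y) × Ω, ((T.prodCongr S).prodCongr G) p ∈ A ↔ p ∈ A := by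
      intro p
      have h1 : ((T.prodCongr S).prodCongr G) p ∈ J ↔ p ∈ J := hJi p
      have h2 : (((T.prodCongr S).prodCongr G) p).1.1 ∈ N ↔ p.1.1 ∈ N := hN.inv p.1.1
      exact and_congr h2 h1
    have hcl : IsClosed (f '' A) := (hA.isCompact.image hf).isClosed
    have hres := hS Ω G M hM (f '' A) hcl
      (fun p => image_inv ((T.prodCongr S).prodCongr G) (S.prodCongr G) f (fun _ => rfl) hAi p) ?_
    · intro y ω hω
      obtain ⟨p, hp, hpe⟩ := hres y ω hω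
      have e1 : p.1.2 = y := congrArg Prod.fst hpe
      have e2 : p.2 = ω := congrArg Prod.snd hpe
      refine ⟨p.1.1, hp.1, ?_⟩
      rw [← e1, ← e2]
      exact hp.2
    · intro y
      obtain ⟨x, hx⟩ := hN.nonempty
      obtain ⟨ω, hω, hJ⟩ := hJp (x, y)
      exact ⟨ω, hω, ((x, y), ω), ⟨hx, hJ⟩, rfl⟩
  -- Step (c)
  obtain ⟨W, hW, w0, hw0W, hw0P, hw0V, hw0M⟩ := dense_min S hS G M hM P0 hP0 ⟨y0, hyP⟩ V0 hV0
    ⟨ω0, hω0, hωV⟩
  -- Step (d)
  let D : Set X := {x | ∃ N, IsMinSet T N ∧ x ∈ N}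
  have hD : Dense D := by
    rw [dense_iff_inter_open]
    intro U hU hUn
    obtain ⟨W', hW', w', hw', hwU, -, -⟩ := dense_min T hT G M hM U hU hUn univ isOpen_univ
      (by simpa using hM.nonempty)
    refine ⟨w'.1, hwU, Prod.fst '' W', ?_, w', hw', rfl⟩
    exact hW'.image (S := T) Prod.fst continuous_fst (fun _ => rfl)
  obtain ⟨t, htD, htc, htd⟩ := hD.exists_countable_dense_subset
  have htn : t.Nonempty := htd.nonempty
  obtain ⟨xs, hxs⟩ := htc.exists_eq_range htn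
  have hxsD : ∀ i, ∃ N, IsMinSet T N ∧ xs i ∈ N := fun i => htD (hxs ▸ mem_range_self i)
  choose N hN hxN using hxsD
  -- Step (e)
  let G' : ((ℕ → X) × (Y × Ω)) ≃ₜ ((ℕ → X) × (Y × Ω)) :=
    (Homeomorph.piCongrRight (fun _ : ℕ => T)).prodCongr (S.prodCongr G)
  have hG'1 : ∀ (q : (ℕ → X) × (Y × Ω)) i, (G' q).1 i = T (q.1 i) := fun q i => rfl
  have hG'2 : ∀ (q : (ℕ → X) × (Y × Ω)), (G' q).2 = (S.prodCongr G) q.2 := fun q => rfl
  let JJ : Set ((ℕ → X) × (Y × Ω)) := (Prod.snd ⁻¹' W) ∩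
    ⋂ i : ℕ, {q | q.1 i ∈ N i ∧ ((q.1 i, q.2.1), q.2.2) ∈ J}
  have hJJc : IsClosed JJ := by
    apply (hW.closed.preimage continuous_snd).inter
    apply isClosed_iInter
    intro i
    apply IsClosed.inter
    · exact (hN i).closed.preimage (by fun_prop : Continuous
        (fun q : (ℕ → X) × (Y × Ω) => q.1 i))
    · exact hJc.preimage (by fun_prop : Continuous
        (fun q : (ℕ → X) × (Y × Ω) => ((q.1 i, q.2.1), q.2.2)))
  have hJJi : ∀ q, G' q ∈ JJ ↔ q ∈ JJ := by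
    intro q
    simp only [JJ, mem_inter_iff, mem_preimage, mem_iInter]
    apply and_congr
    · rw [hG'2]; exact hW.inv q.2
    · apply forall_congr'
      intro i
      apply and_congr
      · rw [hG'1]; exact (hN i).inv _
      · exact hJi ((q.1 i, q.2.1), q.2.2)
  have hJJn : JJ.Nonempty := by
    have : ∀ i, ∃ x ∈ N i, ((x, w0.1), w0.2) ∈ J := fun i => hb (N i) (hN i) w0.1 w0.2 hw0M
    choose f hf1 hf2 using this
    refine ⟨(f, w0), hw0W, ?_⟩
    rw [mem_iInter]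
    exact fun i => ⟨hf1 i, hf2 i⟩
  obtain ⟨Q, hQJ, hQ⟩ := exists_minSet G' JJ hJJc hJJn hJJi
  have hQi : ∀ q ∈ Q, ∀ i, q.1 i ∈ N i ∧ ((q.1 i, q.2.1), q.2.2) ∈ J := by
    intro q hq i
    have := (hQJ hq).2
    rw [mem_iInter] at this
    exact this i
  -- projections of Q
  have hQW : Prod.snd '' Q = W := by
    have h1 := hQ.image (S := S.prodCongr G) Prod.snd continuous_snd (fun _ => rfl)
    apply hW.min _ _ h1.closed h1.nonempty h1.inv
    rintro _ ⟨q, hq, rfl⟩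
    exact (hQJ hq).1
  have hQN : ∀ i, (fun q : (ℕ → X) × (Y × Ω) => q.1 i) '' Q = N i := by
    intro i
    have h1 := hQ.image (S := T) (fun q : (ℕ → X) × (Y × Ω) => q.1 i) (by fun_prop) (fun _ => rfl)
    apply (hN i).min _ _ h1.closed h1.nonempty h1.inv
    rintro _ ⟨q, hq, rfl⟩
    exact (hQi q hq i).1
  -- the joining of X and Q
  let Γ : Set (X × ((ℕ → X) × (Y × Ω))) := {p | p.2 ∈ Q ∧ ∃ i, p.1 = p.2.1 i}
  have hΓi : (T.prodCongr G') ⁻¹' Γ = Γ := by
    ext p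
    simp only [Γ, mem_preimage]
    apply and_congr (hQ.inv p.2)
    apply exists_congr
    intro i
    exact T.injective.eq_iff
  have hJ0i : ∀ p : X × ((ℕ → X) × (Y × Ω)), (T p.1, G' p.2) ∈ closure Γ ↔ p ∈ closure Γ := by
    intro p
    have h := (T.prodCongr G').preimage_closure Γ
    rw [hΓi] at h
    have h' : p ∈ (T.prodCongr G') ⁻¹' closure Γ ↔ p ∈ closure Γ := by rw [h]
    exact h'
  have hJ0p : ∀ x, ∃ q ∈ Q, (x, q) ∈ closure Γ := by
    let A : Set X := Prod.fst '' ((closure Γ) ∩ (Prod.snd ⁻¹' Q))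
    have hAc : IsClosed A :=
      ((isClosed_closure.inter (hQ.closed.preimage continuous_snd)).isCompact.image
        continuous_fst).isClosed
    have hAN : ∀ i, N i ⊆ A := by
      intro i x hx
      rw [← hQN i] at hx
      obtain ⟨q, hq, rfl⟩ := hx
      exact ⟨(q.1 i, q), ⟨subset_closure ⟨hq, i, rfl⟩, hq⟩, rfl⟩
    have htA : t ⊆ A := by
      intro x hx
      rw [hxs] at hx
      obtain ⟨i, rfl⟩ := hx
      exact hAN i (hxN i)
    have hAu : A = univ := by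
      apply eq_univ_of_univ_subset
      rw [← htd.closure_eq]
      exact closure_minimal htA hAc
    intro x
    have : x ∈ A := by rw [hAu]; trivial
    obtain ⟨⟨x', q⟩, ⟨h1, h2⟩, rfl⟩ := this
    exact ⟨q, h2, h1⟩
  have hall := hT ((ℕ → X) × (Y × Ω)) G' Q hQ (closure Γ) isClosed_closure hJ0i hJ0p
  -- conclusion
  have hw0Q : w0 ∈ Prod.snd '' Q := by rw [hQW]; exact hw0W
  obtain ⟨q0, hq0, hq0w⟩ := hw0Q
  have hcl := hall x0 q0 hq0
  rw [mem_closure_iff] at hcl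
  let Nb : Set (X × ((ℕ → X) × (Y × Ω))) := {p | p.1 ∈ O ∧ p.2.2.1 ∈ P0 ∧ p.2.2.2 ∈ V0}
  have hNb : IsOpen Nb := by
    apply (hO.preimage continuous_fst).inter
    apply IsOpen.inter
    · exact hP0.preimage (by fun_prop : Continuous
        (fun p : X × ((ℕ → X) × (Y × Ω)) => p.2.2.1))
    · exact hV0.preimage (by fun_prop : Continuous
        (fun p : X × ((ℕ → X) × (Y × Ω)) => p.2.2.2))
  obtain ⟨p, hpN, hpQ, i, hpi⟩ := hcl Nb hNb ⟨hxO, by rw [hq0w]; exact hw0P, by rw [hq0w]; exact hw0V⟩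
  have hin := (hQi p.2 hpQ i).2
  rw [← hpi] at hin
  exact hmiss p.1 hpN.1 p.2.2.1 hpN.2.1 p.2.2.2 hpN.2.2 hin

end Pool.Agent.W5d027a
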